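import Mathlib

/-!
Every chain of order type `ω + ω*` in the Weihrauch degrees has an intermediate degree.
-/

namespace Pool.Agent.Results.MP_2d238a_lc.IntermediateDegree

open Nat.Partrec (Code)
open Encodable

/-- The finite word of the first `n` values of `x`. -/
def pre (x : ℕ → ℕ) (n : ℕ) : List ℕ := (List.range n).map x

/-- The functional `φ`, reading initial words of its input, sends `p` to `q`: for every `n` the
value `q n` is output at some initial word of `p`, and no other value is ever output. -/
def Computes (φ : List ℕ × ℕ →. ℕ) (p q : ℕ → ℕ) : Prop :=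
  ∀ n, (∃ m, q n ∈ φ (pre p m, n)) ∧ ∀ m v, v ∈ φ (pre p m, n) → v = q n

/-- The pairing of two points of Baire space. -/
def join (p q : ℕ → ℕ) : ℕ → ℕ := fun n => if n % 2 = 0 then p (n / 2) else q (n / 2)

/-- A problem: a partial multivalued function on Baire space; `f p` is the set of the values at
`p`, and the domain consists of the `p` for which `f p` is nonempty. -/
abbrev Problem : Type := (ℕ → ℕ) → Set (ℕ → ℕ)

/-- Weihrauch reducibility. -/
def WLE (f g : Problem) : Prop :=
  ∃ φ ψ : List ℕ × ℕ →. ℕ, Partrec φ ∧ Partrec ψ ∧ ∀ p, (f p).Nonempty →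
    ∃ r, Computes φ p r ∧ (g r).Nonempty ∧ ∀ q ∈ g r, ∃ s ∈ f p, Computes ψ (join p q) s

/-! ### Words -/

/-- dropping the first value -/
def shift (z : ℕ → ℕ) : ℕ → ℕ := fun k => z (k + 1)

/-- putting a value in front -/
def consF (t : ℕ) (x : ℕ → ℕ) : ℕ → ℕ
  | 0 => t
  | k + 1 => x k

theorem shift_consF (t : ℕ) (x : ℕ → ℕ) : shift (consF t x) = x := rfl

theorem pre_succ' (z : ℕ → ℕ) (m : ℕ) : pre z (m + 1) = z 0 :: pre (shift z) m := by
  simp only [pre, List.range_succ_eq_map, List.map_cons, List.map_map]
  rfl

theorem pre_getElem? (x : ℕ → ℕ) (m i : ℕ) : (pre x m)[i]? = if i < m then some (x i) else none := by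
  unfold pre
  by_cases h : i < m <;> simp [h]

theorem pre_take (x : ℕ → ℕ) (m i : ℕ) : (pre x m).take i = pre x (min i m) := by
  unfold pre
  rw [← List.map_take, List.take_range]

/-- from an initial word of `join z q` to one of `join (shift z) q` -/
def tr (w : List ℕ) : List ℕ :=
  (List.range (2 * ((w.length - 1) / 2))).map fun i =>
    if i % 2 = 0 then w.getD (i + 2) 0 else w.getD i 0

theorem tr_pre (z q : ℕ → ℕ) (m : ℕ) :
    tr (pre (join z q) m) = pre (join (shift z) q) (2 * ((m - 1) / 2)) := by
  unfold tr
  have hl : (pre (join z q) m).length = m := by simp [pre]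
  rw [hl]
  unfold pre
  refine List.map_congr_left fun i hi => ?_
  rw [List.mem_range] at hi
  have hg : ∀ j, j < m → (((List.range m).map (join z q)).getD j 0) = join z q j := by
    intro j hj
    simp [List.getD, hj]
  by_cases h : i % 2 = 0
  · rw [if_pos h, hg _ (by omega)]
    unfold join shift
    rw [if_pos h, if_pos (by omega)]
    congr 1
    omega
  · rw [if_neg h, hg _ (by omega)]
    unfold join
    rw [if_neg h, if_neg h]

/-- choosing an initial word -/
def tr' (w : List ℕ) : List ℕ := (tr w).take w.length.unpair.1

theorem tr'_pre (z q : ℕ → ℕ) (m : ℕ) : tr' (pre (join z q) m) =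
    pre (join (shift z) q) (min m.unpair.1 (2 * ((m - 1) / 2))) := by
  unfold tr'
  have hl : (pre (join z q) m).length = m := by simp [pre]
  rw [tr_pre, pre_take, hl]

theorem tr'_pre_pair (z q : ℕ → ℕ) (j : ℕ) :
    tr' (pre (join z q) (Nat.pair j (j + 2))) = pre (join (shift z) q) j := by
  rw [tr'_pre, Nat.unpair_pair]
  have : j + 2 ≤ Nat.pair j (j + 2) := Nat.right_le_pair _ _
  congr 1
  simp only
  omega

theorem tr_primrec : Primrec tr := by
  have hlen : Primrec fun w : List ℕ => 2 * ((w.length - 1) / 2) :=
    Primrec.nat_mul.comp (Primrec.const 2) (Primrec.nat_div.comp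
      (Primrec.nat_sub.comp Primrec.list_length (Primrec.const 1)) (Primrec.const 2))
  refine Primrec.list_map (Primrec.list_range.comp hlen) ?_
  refine Primrec.ite ?_ ?_ ?_
  · exact Primrec.eq.comp (Primrec.nat_mod.comp Primrec.snd (Primrec.const 2)) (Primrec.const 0)
  · exact (Primrec.list_getD 0).comp Primrec.fst (Primrec.nat_add.comp Primrec.snd
      (Primrec.const 2))
  · exact (Primrec.list_getD 0).comp Primrec.fst Primrec.snd

theorem tr'_primrec : Primrec tr' :=
  Primrec.list_take.comp (Primrec.fst.comp (Primrec.unpair.comp Primrec.list_length)) tr_primrec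

/-! ### The construction -/

theorem exists_code' {φ : List ℕ × ℕ →. ℕ} (h : Partrec φ) :
    ∃ c : Code, ∀ a, c.eval (encode a) = φ a := by
  obtain ⟨c, hc⟩ := Code.exists_code.1 h
  refine ⟨c, fun a => ?_⟩
  rw [hc]
  simp only [encodek, Part.coe_some, Part.bind_some]
  exact Part.map_id' (fun _ => rfl) _

/-- Two sequences of problems, each member of the first below each member of the second, have an
intermediate problem. -/
theorem exists_between (f h : ℕ → Problem) (hfh : ∀ n m, WLE (f n) (h m)) :
    ∃ g : Problem, (∀ n, WLE (f n) g) ∧ ∀ m, WLE g (h m) := by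
  choose φ ψ hφ hψ hred using hfh
  choose cφ ecφ using fun n m => exists_code' (hφ n m)
  choose cψ ecψ using fun n m => exists_code' (hψ n m)
  -- the tags
  let L : ℕ → List (Code × Code) := fun n =>
    (List.range (n + 1)).map fun i => (cφ n i, cψ n i)
  let T : ℕ → ℕ := fun n => encode (n, L n)
  have hT : ∀ n n', T n = T n' → n = n' := by
    intro n n' h1
    have := Encodable.encode_injective h1
    exact (Prod.mk.inj this).1
  let g : Problem := fun z => {q | ∃ n, z 0 = T n ∧ q ∈ f n (shift z)}
  refine ⟨g, fun n => ?_, fun m => ?_⟩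
  · -- `f n ≤ g`
    refine ⟨fun a => if a.2 = 0 then Part.some (T n) else ↑(a.1[a.2 - 1]?),
      fun a => ↑(a.1[2 * a.2 + 1]?), ?_, ?_, ?_⟩
    · have h1 : Computable fun a : List ℕ × ℕ => if a.2 = 0 then some (T n) else a.1[a.2 - 1]? :=
        (Primrec.ite (Primrec.eq.comp Primrec.snd (Primrec.const 0)) (Primrec.const _)
          (Primrec.list_getElem?.comp Primrec.fst (Primrec.nat_sub.comp Primrec.snd
            (Primrec.const 1)))).to_comp
      refine h1.ofOption.of_eq fun a => ?_
      split_ifs <;> rfl
    · exact (Primrec.list_getElem?.comp Primrec.fst (Primrec.succ.comp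
        (Primrec.nat_mul.comp (Primrec.const 2) Primrec.snd))).to_comp.ofOption
    · intro p hp
      refine ⟨consF (T n) p, ?_, ?_, ?_⟩
      · intro k
        cases k with
        | zero => exact ⟨⟨0, by simp [consF]⟩, fun m v hv => by simpa [consF] using hv⟩
        | succ k =>
          simp only [Nat.add_sub_cancel, if_neg (Nat.succ_ne_zero k), consF, pre_getElem?]
          refine ⟨⟨k + 1, by simp⟩, fun m v hv => ?_⟩
          split_ifs at hv with hk
          · simpa using hv
          · simp at hv
      · obtain ⟨q, hq⟩ := hp
        exact ⟨q, n, rfl, hq⟩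
      · rintro q ⟨n', h1, h2⟩
        have : n = n' := hT _ _ h1
        subst this
        refine ⟨q, h2, fun k => ?_⟩
        simp only [pre_getElem?]
        have hj : join p q (2 * k + 1) = q k := by
          unfold join
          rw [if_neg (by omega)]
          congr 1
          omega
        rw [hj]
        refine ⟨⟨2 * k + 2, by simp⟩, fun m v hv => ?_⟩
        split_ifs at hv with hk
        · simpa using hv
        · simp at hv
  · -- `g ≤ h m`
    let tb : List (Code × Code) := (List.range m).map fun n => (cφ n m, cψ n m)
    let pick : ℕ → Code × Code := fun t =>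
      if ((decode (α := ℕ × List (Code × Code)) t).getD (0, [])).1 < m then
        tb.getD ((decode (α := ℕ × List (Code × Code)) t).getD (0, [])).1 (Code.zero, Code.zero)
      else ((decode (α := ℕ × List (Code × Code)) t).getD (0, [])).2.getD m (Code.zero, Code.zero)
    have hpick : ∀ n, pick (T n) = (cφ n m, cψ n m) := by
      intro n
      simp only [pick, T, encodek, Option.getD_some]
      split_ifs with h1
      · simp [tb, List.getD, h1]
      · simp [L, List.getD, show m < n + 1 by omega]
    have hpr : Primrec pick := by
      have h0 : Primrec fun t : ℕ => (decode (α := ℕ × List (Code × Code)) t).getD (0, []) :=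
        Primrec.option_getD.comp Primrec.decode (Primrec.const _)
      refine Primrec.ite (Primrec.nat_lt.comp (Primrec.fst.comp h0) (Primrec.const m)) ?_ ?_
      · exact (Primrec.list_getD _).comp (Primrec.const tb) (Primrec.fst.comp h0)
      · exact (Primrec.list_getD _).comp (Primrec.snd.comp h0) (Primrec.const m)
    let Φ : List ℕ × ℕ →. ℕ := fun a => Part.bind ↑(a.1.head?) fun t =>
      (pick t).1.eval (encode (a.1.tail, a.2))
    let Ψ : List ℕ × ℕ →. ℕ := fun a => Part.bind ↑(a.1.head?) fun t =>
      (pick t).2.eval (encode (tr' a.1, a.2))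
    refine ⟨Φ, Ψ, ?_, ?_, ?_⟩
    · refine Partrec.bind (Primrec.list_head?.comp Primrec.fst).to_comp.ofOption ?_
      refine Code.eval_part.comp ((Primrec.fst.comp (hpr.comp Primrec.snd)).to_comp) ?_
      exact (Primrec.encode.comp ((Primrec.list_tail.comp (Primrec.fst.comp Primrec.fst)).pair
        (Primrec.snd.comp Primrec.fst))).to_comp
    · refine Partrec.bind (Primrec.list_head?.comp Primrec.fst).to_comp.ofOption ?_
      refine Code.eval_part.comp ((Primrec.snd.comp (hpr.comp Primrec.snd)).to_comp) ?_
      exact (Primrec.encode.comp ((tr'_primrec.comp (Primrec.fst.comp Primrec.fst)).pair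
        (Primrec.snd.comp Primrec.fst))).to_comp
    · intro z hz
      obtain ⟨q0, n, hn, hq0⟩ := hz
      obtain ⟨r, hr1, hr2, hr3⟩ := hred n m (shift z) ⟨q0, hq0⟩
      refine ⟨r, ?_, hr2, ?_⟩
      · intro k
        obtain ⟨⟨j, hj⟩, h2⟩ := hr1 k
        constructor
        · refine ⟨j + 1, ?_⟩
          simp only [Φ, pre_succ', List.head?_cons, Part.coe_some, Part.bind_some, List.tail_cons,
            hn, hpick, ecφ]
          exact hj
        · intro j v hv
          cases j with
          | zero => simp [Φ, pre] at hv
          | succ j =>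
            simp only [Φ, pre_succ', List.head?_cons, Part.coe_some, Part.bind_some,
              List.tail_cons, hn, hpick, ecφ] at hv
            exact h2 j v hv
      · intro q hq
        obtain ⟨s, hs1, hs2⟩ := hr3 q hq
        refine ⟨s, ⟨n, hn, hs1⟩, ?_⟩
        have hj0 : join z q 0 = T n := by
          unfold join
          rw [if_pos rfl]
          exact hn
        have hhead : ∀ j, (pre (join z q) (j + 1)).head? = some (T n) := by
          intro j
          rw [pre_succ', List.head?_cons, hj0]
        intro k
        obtain ⟨⟨j, hj⟩, h2⟩ := hs2 k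
        constructor
        · refine ⟨Nat.pair j (j + 2), ?_⟩
          have hpos : 0 < Nat.pair j (j + 2) :=
            lt_of_lt_of_le (by omega) (Nat.right_le_pair j (j + 2))
          have hh : (pre (join z q) (Nat.pair j (j + 2))).head? = some (T n) := by
            obtain ⟨i, hi⟩ := Nat.exists_eq_succ_of_ne_zero hpos.ne'
            rw [hi]
            exact hhead i
          simp only [Ψ, hh, Part.coe_some, Part.bind_some, hpick, ecψ, tr'_pre_pair]
          exact hj
        · intro j v hv
          cases j with
          | zero => simp [Ψ, pre] at hv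
          | succ j =>
            simp only [Ψ, hhead, Part.coe_some, Part.bind_some, hpick, ecψ, tr'_pre] at hv
            exact h2 _ v hv

/-- If every `f n` is Weihrauch reducible to every `h m`, then some problem is intermediate. In
particular every chain of order type `ω + ω*` in the Weihrauch degrees has an intermediate
degree. -/
theorem result (f h : ℕ → Problem) (hfh : ∀ n m, WLE (f n) (h m)) :
    ∃ g : Problem, ∀ n m, WLE (f n) g ∧ WLE g (h m) := by
  obtain ⟨g, h1, h2⟩ := exists_between f h hfh
  exact ⟨g, fun n m => ⟨h1 n, h2 m⟩⟩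

end Pool.Agent.Results.MP_2d238a_lc.IntermediateDegree
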